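import Pool.Agent.H24.GS.Stm

/-! # The equations for `Q_σ` -/

set_option autoImplicit false

noncomputable section

namespace Pool.Agent.H24.GS

open Complex Set Filter Topology MeasureTheory Metric
open Pool.Agent.H172R3.SM Pool.Agent.H172R3.SM.Config
open scoped ContDiff Matrix

namespace Calc

variable {f g : ℂ → ℝ}

theorem dx_add (hf : ContDiff ℝ ∞ f) (hg : ContDiff ℝ ∞ g) :
    dx (fun z => f z + g z) = fun z => dx f z + dx g z := by
  funext z
  unfold dx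
  rw [fderiv_fun_add (hf.differentiable (by simp) z) (hg.differentiable (by simp) z)]
  rfl

theorem dy_add (hf : ContDiff ℝ ∞ f) (hg : ContDiff ℝ ∞ g) :
    dy (fun z => f z + g z) = fun z => dy f z + dy g z := by
  funext z
  unfold dy
  rw [fderiv_fun_add (hf.differentiable (by simp) z) (hg.differentiable (by simp) z)]
  rfl

theorem dx_sub (hf : ContDiff ℝ ∞ f) (hg : ContDiff ℝ ∞ g) :
    dx (fun z => f z - g z) = fun z => dx f z - dx g z := by
  funext z
  unfold dx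
  rw [fderiv_fun_sub (hf.differentiable (by simp) z) (hg.differentiable (by simp) z)]
  rfl

theorem dy_sub (hf : ContDiff ℝ ∞ f) (hg : ContDiff ℝ ∞ g) :
    dy (fun z => f z - g z) = fun z => dy f z - dy g z := by
  funext z
  unfold dy
  rw [fderiv_fun_sub (hf.differentiable (by simp) z) (hg.differentiable (by simp) z)]
  rfl

theorem dx_mul (hf : ContDiff ℝ ∞ f) (hg : ContDiff ℝ ∞ g) :
    dx (fun z => f z * g z) = fun z => f z * dx g z + g z * dx f z := by
  funext z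
  unfold dx
  rw [fderiv_fun_mul (hf.differentiable (by simp) z) (hg.differentiable (by simp) z)]
  simp

theorem dy_mul (hf : ContDiff ℝ ∞ f) (hg : ContDiff ℝ ∞ g) :
    dy (fun z => f z * g z) = fun z => f z * dy g z + g z * dy f z := by
  funext z
  unfold dy
  rw [fderiv_fun_mul (hf.differentiable (by simp) z) (hg.differentiable (by simp) z)]
  simp

theorem dx_neg (f : ℂ → ℝ) : dx (fun z => - f z) = fun z => - dx f z := by
  funext z
  unfold dx
  rw [fderiv_fun_neg]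
  rfl

theorem dy_neg (f : ℂ → ℝ) : dy (fun z => - f z) = fun z => - dy f z := by
  funext z
  unfold dy
  rw [fderiv_fun_neg]
  rfl

theorem dx_const (k : ℝ) : dx (fun _ => k) = fun _ => 0 := by
  funext z
  unfold dx
  simp

theorem dy_const (k : ℝ) : dy (fun _ => k) = fun _ => 0 := by
  funext z
  unfold dy
  simp

theorem symm (hf : ContDiff ℝ ∞ f) (z : ℂ) : dx (dy f) z = dy (dx f) z :=
  dxdy_symm (hf.contDiffAt.of_le two_le_inf)

end Calc

open Calc

section crit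

variable {c : Config}

/-- components -/
theorem cmp (h : ContDiff ℝ ∞ c.phi) (i : Fin 3) : ContDiff ℝ ∞ (fun z => c.phi z i) :=
  contDiff_pi.1 h i

theorem fderiv_cmp {φ : ℂ → Fin 3 → ℝ} (h : ContDiff ℝ ∞ φ) (z v : ℂ) (i : Fin 3) :
    fderiv ℝ φ z v i = fderiv ℝ (fun z => φ z i) z v := by
  have h1 := (h.differentiable (by simp) z).hasFDerivAt
  have h2 := (hasFDerivAt_pi'.1 h1) i
  rw [h2.fderiv]
  rfl

theorem cD10 (h : ContDiff ℝ ∞ c.phi) (z : ℂ) :
    c.D1 z 0 = dx (fun z => c.phi z 0) z - c.A1 z * c.phi z 1 := by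
  unfold D1 dx
  rw [Pi.add_apply, fderiv_cmp h]
  simp [nn, crossProduct]
  ring

theorem cD11 (h : ContDiff ℝ ∞ c.phi) (z : ℂ) :
    c.D1 z 1 = dx (fun z => c.phi z 1) z + c.A1 z * c.phi z 0 := by
  unfold D1 dx
  rw [Pi.add_apply, fderiv_cmp h]
  simp [nn, crossProduct]

theorem cD12 (h : ContDiff ℝ ∞ c.phi) (z : ℂ) :
    c.D1 z 2 = dx (fun z => c.phi z 2) z := by
  unfold D1 dx
  rw [Pi.add_apply, fderiv_cmp h]
  simp [nn, crossProduct]

theorem cD20 (h : ContDiff ℝ ∞ c.phi) (z : ℂ) :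
    c.D2 z 0 = dy (fun z => c.phi z 0) z - c.A2 z * c.phi z 1 := by
  unfold D2 dy
  rw [Pi.add_apply, fderiv_cmp h]
  simp [nn, crossProduct]
  ring

theorem cD21 (h : ContDiff ℝ ∞ c.phi) (z : ℂ) :
    c.D2 z 1 = dy (fun z => c.phi z 1) z + c.A2 z * c.phi z 0 := by
  unfold D2 dy
  rw [Pi.add_apply, fderiv_cmp h]
  simp [nn, crossProduct]

theorem cD22 (h : ContDiff ℝ ∞ c.phi) (z : ℂ) :
    c.D2 z 2 = dy (fun z => c.phi z 2) z := by
  unfold D2 dy
  rw [Pi.add_apply, fderiv_cmp h]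
  simp [nn, crossProduct]

theorem smD1 (h : IsCritical c) (i : Fin 3) : ContDiff ℝ ∞ (fun z => c.D1 z i) := by
  have h0 := cmp h.smooth 0
  have h1 := cmp h.smooth 1
  have h2 := cmp h.smooth 2
  fin_cases i
  · exact (funext (cD10 h.smooth) : (fun z => c.D1 z 0) = _) ▸
      ((contDiff_dx h0).sub (h.smooth1.mul h1))
  · exact (funext (cD11 h.smooth) : (fun z => c.D1 z 1) = _) ▸
      ((contDiff_dx h1).add (h.smooth1.mul h0))
  · exact (funext (cD12 h.smooth) : (fun z => c.D1 z 2) = _) ▸ (contDiff_dx h2)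

theorem smD2 (h : IsCritical c) (i : Fin 3) : ContDiff ℝ ∞ (fun z => c.D2 z i) := by
  have h0 := cmp h.smooth 0
  have h1 := cmp h.smooth 1
  have h2 := cmp h.smooth 2
  fin_cases i
  · exact (funext (cD20 h.smooth) : (fun z => c.D2 z 0) = _) ▸
      ((contDiff_dy h0).sub (h.smooth2.mul h1))
  · exact (funext (cD21 h.smooth) : (fun z => c.D2 z 1) = _) ▸
      ((contDiff_dy h1).add (h.smooth2.mul h0))
  · exact (funext (cD22 h.smooth) : (fun z => c.D2 z 2) = _) ▸ (contDiff_dy h2)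

theorem smD1' (h : IsCritical c) : ContDiff ℝ ∞ c.D1 := contDiff_pi.2 (smD1 h)
theorem smD2' (h : IsCritical c) : ContDiff ℝ ∞ c.D2 := contDiff_pi.2 (smD2 h)

theorem F12_eq (c : Config) : c.F12 = fun z => dx c.A2 z - dy c.A1 z := rfl

theorem smF (h : IsCritical c) : ContDiff ℝ ∞ c.F12 := by
  rw [F12_eq]
  exact (contDiff_dx h.smooth2).sub (contDiff_dy h.smooth1)

theorem sph (h : IsCritical c) (z : ℂ) :
    c.phi z 0 * c.phi z 0 + c.phi z 1 * c.phi z 1 + c.phi z 2 * c.phi z 2 = 1 := by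
  have := h.sphere z
  simpa only [dotProduct, Fin.sum_univ_three] using this

/-- a function which is constantly `k` has vanishing derivatives -/
theorem dx_of_const {f : ℂ → ℝ} {k : ℝ} (h : ∀ z, f z = k) (z : ℂ) : dx f z = 0 := by
  have : f = fun _ => k := funext h
  rw [this, dx_const]

theorem dy_of_const {f : ℂ → ℝ} {k : ℝ} (h : ∀ z, f z = k) (z : ℂ) : dy f z = 0 := by
  have : f = fun _ => k := funext h
  rw [this, dy_const]

theorem dx_sq3 {a b u : ℂ → ℝ} (ha : ContDiff ℝ ∞ a) (hb : ContDiff ℝ ∞ b)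
    (hu : ContDiff ℝ ∞ u) {a' b' u' : ℂ → ℝ} (ha' : ContDiff ℝ ∞ a') (hb' : ContDiff ℝ ∞ b')
    (hu' : ContDiff ℝ ∞ u') (z : ℂ) :
    dx (fun z => a z * a' z + b z * b' z + u z * u' z) z =
      (a z * dx a' z + a' z * dx a z) + (b z * dx b' z + b' z * dx b z) +
      (u z * dx u' z + u' z * dx u z) := by
  rw [dx_add ((ha.mul ha').add (hb.mul hb')) (hu.mul hu'), dx_mul hu hu']
  simp only
  rw [dx_add (ha.mul ha') (hb.mul hb'), dx_mul ha ha', dx_mul hb hb']

theorem dy_sq3 {a b u : ℂ → ℝ} (ha : ContDiff ℝ ∞ a) (hb : ContDiff ℝ ∞ b)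
    (hu : ContDiff ℝ ∞ u) {a' b' u' : ℂ → ℝ} (ha' : ContDiff ℝ ∞ a') (hb' : ContDiff ℝ ∞ b')
    (hu' : ContDiff ℝ ∞ u') (z : ℂ) :
    dy (fun z => a z * a' z + b z * b' z + u z * u' z) z =
      (a z * dy a' z + a' z * dy a z) + (b z * dy b' z + b' z * dy b z) +
      (u z * dy u' z + u' z * dy u z) := by
  rw [dy_add ((ha.mul ha').add (hb.mul hb')) (hu.mul hu'), dy_mul hu hu']
  simp only
  rw [dy_add (ha.mul ha') (hb.mul hb'), dy_mul ha ha', dy_mul hb hb']

/-- tangency -/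
theorem tan1 (h : IsCritical c) (z : ℂ) :
    c.phi z 0 * c.D1 z 0 + c.phi z 1 * c.D1 z 1 + c.phi z 2 * c.D1 z 2 = 0 := by
  have h0 := cmp h.smooth 0
  have h1 := cmp h.smooth 1
  have h2 := cmp h.smooth 2
  have e := dx_of_const (sph h) z
  rw [dx_sq3 h0 h1 h2 h0 h1 h2] at e
  rw [cD10 h.smooth, cD11 h.smooth, cD12 h.smooth]
  linarith

theorem tan2 (h : IsCritical c) (z : ℂ) :
    c.phi z 0 * c.D2 z 0 + c.phi z 1 * c.D2 z 1 + c.phi z 2 * c.D2 z 2 = 0 := by
  have h0 := cmp h.smooth 0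
  have h1 := cmp h.smooth 1
  have h2 := cmp h.smooth 2
  have e := dy_of_const (sph h) z
  rw [dy_sq3 h0 h1 h2 h0 h1 h2] at e
  rw [cD20 h.smooth, cD21 h.smooth, cD22 h.smooth]
  linarith

/-- derivative of the tangency -/
theorem ttan1 (h : IsCritical c) (z : ℂ) :
    (c.D1 z 0 ^ 2 + c.D1 z 1 ^ 2 + c.D1 z 2 ^ 2) +
    c.phi z 0 * (dx (fun z => c.D1 z 0) z - c.A1 z * c.D1 z 1) +
    c.phi z 1 * (dx (fun z => c.D1 z 1) z + c.A1 z * c.D1 z 0) +
    c.phi z 2 * dx (fun z => c.D1 z 2) z = 0 := by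
  have h0 := cmp h.smooth 0
  have h1 := cmp h.smooth 1
  have h2 := cmp h.smooth 2
  have e := dx_of_const (tan1 h) z
  rw [dx_sq3 h0 h1 h2 (smD1 h 0) (smD1 h 1) (smD1 h 2)] at e
  have e0 := cD10 h.smooth z
  have e1 := cD11 h.smooth z
  have e2 := cD12 h.smooth z
  have f0 : dx (fun z => c.phi z 0) z = c.D1 z 0 + c.A1 z * c.phi z 1 := by linarith
  have f1 : dx (fun z => c.phi z 1) z = c.D1 z 1 - c.A1 z * c.phi z 0 := by linarith
  rw [f0, f1, ← e2] at e
  linarith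

theorem ttan2 (h : IsCritical c) (z : ℂ) :
    (c.D2 z 0 ^ 2 + c.D2 z 1 ^ 2 + c.D2 z 2 ^ 2) +
    c.phi z 0 * (dy (fun z => c.D2 z 0) z - c.A2 z * c.D2 z 1) +
    c.phi z 1 * (dy (fun z => c.D2 z 1) z + c.A2 z * c.D2 z 0) +
    c.phi z 2 * dy (fun z => c.D2 z 2) z = 0 := by
  have h0 := cmp h.smooth 0
  have h1 := cmp h.smooth 1
  have h2 := cmp h.smooth 2
  have e := dy_of_const (tan2 h) z
  rw [dy_sq3 h0 h1 h2 (smD2 h 0) (smD2 h 1) (smD2 h 2)] at e
  have e0 := cD20 h.smooth z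
  have e1 := cD21 h.smooth z
  have e2 := cD22 h.smooth z
  have f0 : dy (fun z => c.phi z 0) z = c.D2 z 0 + c.A2 z * c.phi z 1 := by linarith
  have f1 : dy (fun z => c.phi z 1) z = c.D2 z 1 - c.A2 z * c.phi z 0 := by linarith
  rw [f0, f1, ← e2] at e
  linarith

/-- the components of the Euler-Lagrange equation for `φ` -/
theorem el_cmp (h : IsCritical c) (z : ℂ) :
    let X0 := (dx (fun z => c.D1 z 0) z - c.A1 z * c.D1 z 1) +
      (dy (fun z => c.D2 z 0) z - c.A2 z * c.D2 z 1)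
    let X1 := (dx (fun z => c.D1 z 1) z + c.A1 z * c.D1 z 0) +
      (dy (fun z => c.D2 z 1) z + c.A2 z * c.D2 z 0)
    let X2 := dx (fun z => c.D1 z 2) z + dy (fun z => c.D2 z 2) z + (1 - c.phi z 2)
    X1 * c.phi z 2 - X2 * c.phi z 1 = 0 ∧ X2 * c.phi z 0 - X0 * c.phi z 2 = 0 ∧
      X0 * c.phi z 1 - X1 * c.phi z 0 = 0 := by
  intro X0 X1 X2
  have e := h.elphi z
  have e0 := congrFun e 0
  have e1 := congrFun e 1
  have e2 := congrFun e 2
  have k1 : ∀ i, fderiv ℝ c.D1 z 1 i = dx (fun z => c.D1 z i) z := fun i =>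
    fderiv_cmp (smD1' h) z 1 i
  have k2 : ∀ i, fderiv ℝ c.D2 z I i = dy (fun z => c.D2 z i) z := fun i =>
    fderiv_cmp (smD2' h) z I i
  simp only [crossProduct, nn, LinearMap.mk₂_apply, Pi.add_apply, Pi.smul_apply, smul_eq_mul,
    Matrix.cons_val_zero, Matrix.cons_val_one, Matrix.cons_val, k1, k2, Pi.zero_apply,
    dotProduct, Fin.sum_univ_three] at e0 e1 e2
  refine ⟨?_, ?_, ?_⟩
  · simp only [X0, X1, X2]; linarith
  · simp only [X0, X1, X2]; linarith
  · simp only [X0, X1, X2]; linarith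

/-- Laplacian of `φ₂` -/
theorem lap_u (h : IsCritical c) (z : ℂ) :
    lap (fun z => c.phi z 2) z = -(1 - c.phi z 2) * (1 - c.phi z 2 ^ 2) -
      c.phi z 2 * ((c.D1 z 0 ^ 2 + c.D1 z 1 ^ 2 + c.D1 z 2 ^ 2) +
        (c.D2 z 0 ^ 2 + c.D2 z 1 ^ 2 + c.D2 z 2 ^ 2)) := by
  have hl : lap (fun z => c.phi z 2) z =
      dx (fun z => c.D1 z 2) z + dy (fun z => c.D2 z 2) z := by
    have g1 : (fun z => c.D1 z 2) = dx (fun z => c.phi z 2) := funext fun y => cD12 h.smooth y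
    have g2 : (fun z => c.D2 z 2) = dy (fun z => c.phi z 2) := funext fun y => cD22 h.smooth y
    rw [g1, g2]
    rfl
  rw [hl]
  obtain ⟨e0, e1, e2⟩ := el_cmp h z
  have t1 := ttan1 h z
  have t2 := ttan2 h z
  have s := sph h z
  set a := c.phi z 0
  set b := c.phi z 1
  set u := c.phi z 2
  set X0 := (dx (fun z => c.D1 z 0) z - c.A1 z * c.D1 z 1) +
      (dy (fun z => c.D2 z 0) z - c.A2 z * c.D2 z 1) with hX0
  set X1 := (dx (fun z => c.D1 z 1) z + c.A1 z * c.D1 z 0) +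
      (dy (fun z => c.D2 z 1) z + c.A2 z * c.D2 z 0) with hX1
  set m := dx (fun z => c.D1 z 2) z + dy (fun z => c.D2 z 2) z with hm
  set N1 := c.D1 z 0 ^ 2 + c.D1 z 1 ^ 2 + c.D1 z 2 ^ 2
  set N2 := c.D2 z 0 ^ 2 + c.D2 z 1 ^ 2 + c.D2 z 2 ^ 2
  -- `X·φ`
  have hd : a * X0 + b * X1 + u * m = -(N1 + N2) := by
    rw [hX0, hX1, hm]
    linarith
  -- `X2 = (X·φ) u`
  have h2 : (m + (1 - u)) * (a * a + b * b + u * u) =
      u * (a * X0 + b * X1 + u * (m + (1 - u))) := by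
    linear_combination a * e1 - b * e0
  rw [s, mul_one] at h2
  have h3 : m + (1 - u) = u * (-(N1 + N2) + u * (1 - u)) := by
    rw [h2]
    have : a * X0 + b * X1 + u * (m + (1 - u)) = (a * X0 + b * X1 + u * m) + u * (1 - u) := by
      ring
    rw [this, hd]
  linear_combination h3

/-- the equations for `F` -/
theorem dxF (h : IsCritical c) :
    dx c.F12 = fun z => c.phi z 0 * c.D2 z 1 - c.phi z 1 * c.D2 z 0 := by
  funext z
  have e := h.elA2 z
  simp only [crossProduct, nn, LinearMap.mk₂_apply, Matrix.cons_val_zero, Matrix.cons_val_one,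
    Matrix.cons_val, dotProduct, Fin.sum_univ_three] at e
  linarith

theorem dyF (h : IsCritical c) :
    dy c.F12 = fun z => c.phi z 1 * c.D1 z 0 - c.phi z 0 * c.D1 z 1 := by
  funext z
  have e := h.elA1 z
  simp only [crossProduct, nn, LinearMap.mk₂_apply, Matrix.cons_val_zero, Matrix.cons_val_one,
    Matrix.cons_val, dotProduct, Fin.sum_univ_three] at e
  linarith

/-- commutators -/
theorem comm0 (h : IsCritical c) (z : ℂ) :
    dx (fun z => c.D2 z 0) z - dy (fun z => c.D1 z 0) z =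
      - c.F12 z * c.phi z 1 - c.A2 z * dx (fun z => c.phi z 1) z +
        c.A1 z * dy (fun z => c.phi z 1) z := by
  have h0 := cmp h.smooth 0
  have h1 := cmp h.smooth 1
  have g1 : (fun z => c.D1 z 0) = fun z => dx (fun z => c.phi z 0) z - c.A1 z * c.phi z 1 :=
    funext fun y => cD10 h.smooth y
  have g2 : (fun z => c.D2 z 0) = fun z => dy (fun z => c.phi z 0) z - c.A2 z * c.phi z 1 :=
    funext fun y => cD20 h.smooth y
  rw [g1, g2, dx_sub (contDiff_dy h0) (h.smooth2.mul h1), dy_sub (contDiff_dx h0)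
    (h.smooth1.mul h1), dx_mul h.smooth2 h1, dy_mul h.smooth1 h1, F12_eq]
  have := symm h0 z
  simp only
  linear_combination this

theorem comm1 (h : IsCritical c) (z : ℂ) :
    dx (fun z => c.D2 z 1) z - dy (fun z => c.D1 z 1) z =
      c.F12 z * c.phi z 0 + c.A2 z * dx (fun z => c.phi z 0) z -
        c.A1 z * dy (fun z => c.phi z 0) z := by
  have h0 := cmp h.smooth 0
  have h1 := cmp h.smooth 1
  have g1 : (fun z => c.D1 z 1) = fun z => dx (fun z => c.phi z 1) z + c.A1 z * c.phi z 0 :=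
    funext fun y => cD11 h.smooth y
  have g2 : (fun z => c.D2 z 1) = fun z => dy (fun z => c.phi z 1) z + c.A2 z * c.phi z 0 :=
    funext fun y => cD21 h.smooth y
  rw [g1, g2, dx_add (contDiff_dy h1) (h.smooth2.mul h0), dy_add (contDiff_dx h1)
    (h.smooth1.mul h0), dx_mul h.smooth2 h0, dy_mul h.smooth1 h0, F12_eq]
  have := symm h1 z
  simp only
  linear_combination this

/-- Laplacian of `F₁₂` -/
theorem lap_F (h : IsCritical c) (z : ℂ) :
    lap c.F12 z = (1 - c.phi z 2 ^ 2) * c.F12 z +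
      2 * (c.D1 z 0 * c.D2 z 1 - c.D1 z 1 * c.D2 z 0) := by
  have h0 := cmp h.smooth 0
  have h1 := cmp h.smooth 1
  unfold lap
  rw [dxF h, dyF h, dx_sub (h0.mul (smD2 h 1)) (h1.mul (smD2 h 0)),
    dy_sub (h1.mul (smD1 h 0)) (h0.mul (smD1 h 1)), dx_mul h0 (smD2 h 1), dx_mul h1 (smD2 h 0),
    dy_mul h1 (smD1 h 0), dy_mul h0 (smD1 h 1)]
  have c0 := comm0 h z
  have c1 := comm1 h z
  have e0 := cD10 h.smooth z
  have e1 := cD11 h.smooth z
  have e3 := cD20 h.smooth z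
  have e4 := cD21 h.smooth z
  have s := sph h z
  simp only
  have f0 : dx (fun z => c.phi z 0) z = c.D1 z 0 + c.A1 z * c.phi z 1 := by linarith
  have f1 : dx (fun z => c.phi z 1) z = c.D1 z 1 - c.A1 z * c.phi z 0 := by linarith
  have f2 : dy (fun z => c.phi z 0) z = c.D2 z 0 + c.A2 z * c.phi z 1 := by linarith
  have f3 : dy (fun z => c.phi z 1) z = c.D2 z 1 - c.A2 z * c.phi z 0 := by linarith
  rw [f0, f1, f2, f3]
  rw [f1, f3] at c0
  rw [f0, f2] at c1
  linear_combination (-c.phi z 1) * c0 + c.phi z 0 * c1 + c.F12 z * s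

end crit

/-- algebra: `R_σ` -/
theorem R_alg {a b u x0 x1 x2 y0 y1 y2 σ : ℝ} (s : a * a + b * b + u * u = 1)
    (t1 : a * x0 + b * x1 + u * x2 = 0) (t2 : a * y0 + b * y1 + u * y2 = 0)
    (hσ : σ ^ 2 = 1) :
    u * ((x0 + σ * (b * y2 - u * y1)) ^ 2 + (x1 + σ * (u * y0 - a * y2)) ^ 2 +
      (x2 + σ * (a * y1 - b * y0)) ^ 2) =
    u * ((x0 ^ 2 + x1 ^ 2 + x2 ^ 2) + (y0 ^ 2 + y1 ^ 2 + y2 ^ 2)) -
      2 * σ * (x0 * y1 - x1 * y0) := by
  -- `|φ × y|² = |φ|²|y|² - (φ·y)²`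
  have k1 : (b * y2 - u * y1) ^ 2 + (u * y0 - a * y2) ^ 2 + (a * y1 - b * y0) ^ 2 =
      y0 ^ 2 + y1 ^ 2 + y2 ^ 2 := by
    linear_combination (y0 ^ 2 + y1 ^ 2 + y2 ^ 2) * s - (a * y0 + b * y1 + u * y2) * t2
  -- `u φ·(x × y) = (x × y)₂`
  have k2 : u * (x0 * (b * y2 - u * y1) + x1 * (u * y0 - a * y2) + x2 * (a * y1 - b * y0)) =
      -(x0 * y1 - x1 * y0) := by
    linear_combination (-(x0 * y1 - x1 * y0)) * s +
      (a * y1 - b * y0) * t1 - (a * x1 - b * x0) * t2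
  linear_combination u * k1 + 2 * σ * k2 +
    u * ((b * y2 - u * y1) ^ 2 + (u * y0 - a * y2) ^ 2 + (a * y1 - b * y0) ^ 2) * hσ

/-- algebra: the gradient -/
theorem grad_alg {a b u x0 x1 x2 y0 y1 y2 σ : ℝ} (s : a * a + b * b + u * u = 1)
    (t1 : a * x0 + b * x1 + u * x2 = 0) (t2 : a * y0 + b * y1 + u * y2 = 0)
    (hσ : σ = 1 ∨ σ = -1) :
    (1 - u ^ 2) * ((x0 + σ * (b * y2 - u * y1)) ^ 2 + (x1 + σ * (u * y0 - a * y2)) ^ 2 +
      (x2 + σ * (a * y1 - b * y0)) ^ 2) =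
    (-x2 - σ * (a * y1 - b * y0)) ^ 2 + (-y2 - σ * (b * x0 - a * x1)) ^ 2 := by
  -- tangent vectors
  have key : ∀ v0 v1 v2 : ℝ, a * v0 + b * v1 + u * v2 = 0 →
      (1 - u ^ 2) * (v0 ^ 2 + v1 ^ 2 + v2 ^ 2) = v2 ^ 2 + (a * v1 - b * v0) ^ 2 := by
    intro v0 v1 v2 hv
    linear_combination (-(v0 ^ 2 + v1 ^ 2 + v2 ^ 2) + v2 ^ 2) * s +
      (a * v0 + b * v1 - u * v2) * hv
  have hv : a * (x0 + σ * (b * y2 - u * y1)) + b * (x1 + σ * (u * y0 - a * y2)) +
      u * (x2 + σ * (a * y1 - b * y0)) = 0 := by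
    linear_combination t1
  rw [key _ _ _ hv]
  have e : a * (x1 + σ * (u * y0 - a * y2)) - b * (x0 + σ * (b * y2 - u * y1)) =
      (a * x1 - b * x0) - σ * y2 := by
    linear_combination (-σ * y2) * s + σ * u * t2
  rw [e]
  rcases hσ with rfl | rfl <;> ring

theorem t_BOC : S_BOC := by
  intro c σ h hσ
  have h0 := cmp h.smooth 0
  have h1 := cmp h.smooth 1
  have h2 := cmp h.smooth 2
  have hF := smF h
  have hσF : ContDiff ℝ ∞ (fun z => σ * c.F12 z) := contDiff_const.mul hF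
  have h1u : ContDiff ℝ ∞ (fun z => 1 - c.phi z 2) := contDiff_const.sub h2
  have hQ : ContDiff ℝ ∞ (Q c σ) := h1u.sub hσF
  have dxQ : dx (Q c σ) = fun z => - dx (fun z => c.phi z 2) z - σ * dx c.F12 z := by
    have : Q c σ = fun z => (1 - c.phi z 2) - σ * c.F12 z := rfl
    rw [this, dx_sub h1u hσF, dx_sub contDiff_const h2, dx_mul contDiff_const hF, dx_const,
      dx_const]
    funext z
    simp only
    ring
  have dyQ : dy (Q c σ) = fun z => - dy (fun z => c.phi z 2) z - σ * dy c.F12 z := by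
    have : Q c σ = fun z => (1 - c.phi z 2) - σ * c.F12 z := rfl
    rw [this, dy_sub h1u hσF, dy_sub contDiff_const h2, dy_mul contDiff_const hF, dy_const,
      dy_const]
    funext z
    simp only
    ring
  have hR : ∀ z, R c σ z =
      (c.D1 z 0 + σ * (c.phi z 1 * c.D2 z 2 - c.phi z 2 * c.D2 z 1)) ^ 2 +
      (c.D1 z 1 + σ * (c.phi z 2 * c.D2 z 0 - c.phi z 0 * c.D2 z 2)) ^ 2 +
      (c.D1 z 2 + σ * (c.phi z 0 * c.D2 z 1 - c.phi z 1 * c.D2 z 0)) ^ 2 := by
    intro z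
    unfold R
    simp only [crossProduct, LinearMap.mk₂_apply, Pi.add_apply, Pi.smul_apply, smul_eq_mul,
      Matrix.cons_val_zero, Matrix.cons_val_one, Matrix.cons_val, dotProduct, Fin.sum_univ_three]
    ring
  refine ⟨hQ, fun z => ?_, fun z => ?_⟩
  · have hσ2 : σ ^ 2 = 1 := by rcases hσ with rfl | rfl <;> norm_num
    have r := R_alg (sph h z) (tan1 h z) (tan2 h z) hσ2
    have l1 := lap_u h z
    have l2 := lap_F h z
    have lQ : lap (Q c σ) z = - lap (fun z => c.phi z 2) z - σ * lap c.F12 z := by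
      unfold lap
      rw [dxQ, dyQ, dx_sub (contDiff_dx h2).neg (contDiff_const.mul (contDiff_dx hF)),
        dy_sub (contDiff_dy h2).neg (contDiff_const.mul (contDiff_dy hF)),
        dx_mul contDiff_const (contDiff_dx hF), dy_mul contDiff_const (contDiff_dy hF),
        dx_neg, dy_neg, dx_const, dy_const]
      simp only
      ring
    rw [lQ, l1, l2, hR, r]
    unfold Q
    ring
  · have g := grad_alg (sph h z) (tan1 h z) (tan2 h z) hσ
    rw [hR, g, dxQ, dyQ, dxF h, dyF h]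
    simp only
    rw [← cD12 h.smooth, ← cD22 h.smooth]

end Pool.Agent.H24.GS
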