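import Pool.Agent.H24.GS.BOC

/-! # Assembly -/

set_option autoImplicit false

noncomputable section

namespace Pool.Agent.H24.GS

open Complex Set Filter Topology MeasureTheory Metric
open Pool.Agent.H172R3.SM Pool.Agent.H172R3.SM.Config
open scoped ContDiff Matrix

variable {c : Config}

theorem u_le (h : IsCritical c) (z : ℂ) : c.phi z 2 ≤ 1 := by
  have := sph h z
  nlinarith [mul_self_nonneg (c.phi z 0), mul_self_nonneg (c.phi z 1)]

theorem u_ge (h : IsCritical c) (z : ℂ) : -1 ≤ c.phi z 2 := by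
  have := sph h z
  nlinarith [mul_self_nonneg (c.phi z 0), mul_self_nonneg (c.phi z 1)]

theorem eq_nn (h : IsCritical c) {z : ℂ} (hz : c.phi z 2 = 1) : c.phi z = nn := by
  have := sph h z
  rw [hz] at this
  have h0 : c.phi z 0 = 0 := by
    nlinarith [mul_self_nonneg (c.phi z 0), mul_self_nonneg (c.phi z 1)]
  have h1 : c.phi z 1 = 0 := by
    nlinarith [mul_self_nonneg (c.phi z 0), mul_self_nonneg (c.phi z 1)]
  funext i
  fin_cases i
  · simpa [nn] using h0
  · simpa [nn] using h1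
  · simpa [nn] using hz

theorem dot_self_nonneg (v : Fin 3 → ℝ) : 0 ≤ v ⬝ᵥ v := by
  simp only [dotProduct, Fin.sum_univ_three]
  nlinarith [mul_self_nonneg (v 0), mul_self_nonneg (v 1), mul_self_nonneg (v 2)]

theorem R_nonneg (c : Config) (σ : ℝ) (z : ℂ) : 0 ≤ R c σ z := dot_self_nonneg _

/-- where `Q_σ` vanishes near `z`, the first order equations hold -/
theorem sd_of_Q (hBOC : S_BOC) (h : IsCritical c) {σ : ℝ} (hσ : σ = 1 ∨ σ = -1) {z : ℂ}
    (hz : ∀ᶠ y in 𝓝 z, Q c σ y = 0) : SDAt c σ z := by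
  obtain ⟨hQ, hl, hg⟩ := hBOC c σ h hσ
  have hz' : Q c σ =ᶠ[𝓝 z] fun _ => (0 : ℝ) := hz
  have d : ∀ v : ℂ, fderiv ℝ (Q c σ) z v = 0 := fun v => by
    rw [hz'.fderiv_eq]; simp
  have dd : ∀ v : ℂ, (fun y => fderiv ℝ (Q c σ) y v) =ᶠ[𝓝 z] fun _ => (0 : ℝ) := fun v => by
    have hd : fderiv ℝ (Q c σ) =ᶠ[𝓝 z] fderiv ℝ (fun _ => (0 : ℝ)) := hz'.fderiv
    filter_upwards [hd] with y hy
    rw [hy]; simp
  have l0 : lap (Q c σ) z = 0 := by
    have e1 : dx (dx (Q c σ)) z = 0 := by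
      show fderiv ℝ (fun y => fderiv ℝ (Q c σ) y 1) z 1 = 0
      rw [(dd 1).fderiv_eq]; simp
    have e2 : dy (dy (Q c σ)) z = 0 := by
      show fderiv ℝ (fun y => fderiv ℝ (Q c σ) y I) z I = 0
      rw [(dd I).fderiv_eq]; simp
    unfold lap
    rw [e1, e2, add_zero]
  have q0 : Q c σ z = 0 := hz'.eq_of_nhds
  have k1 := hl z
  have k2 := hg z
  rw [l0, q0] at k1
  have g1 : dx (Q c σ) z = 0 := d 1
  have g2 : dy (Q c σ) z = 0 := d I
  rw [g1, g2] at k2
  have hR : R c σ z = 0 := by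
    have e1 : c.phi z 2 * R c σ z = 0 := by linarith
    have e2 : (1 - c.phi z 2 ^ 2) * R c σ z = 0 := by linarith
    linear_combination c.phi z 2 * e1 + e2
  refine ⟨?_, ?_⟩
  · set v := c.D1 z + σ • (c.phi z ⨯₃ c.D2 z) with hv
    have hv0 : v ⬝ᵥ v = 0 := hR
    have hvz : v = 0 := by
      simp only [dotProduct, Fin.sum_univ_three] at hv0
      funext i
      fin_cases i
      · show v 0 = 0
        nlinarith [mul_self_nonneg (v 0), mul_self_nonneg (v 1), mul_self_nonneg (v 2)]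
      · show v 1 = 0
        nlinarith [mul_self_nonneg (v 0), mul_self_nonneg (v 1), mul_self_nonneg (v 2)]
      · show v 2 = 0
        nlinarith [mul_self_nonneg (v 0), mul_self_nonneg (v 1), mul_self_nonneg (v 2)]
    rw [hv] at hvz
    exact eq_neg_of_add_eq_zero_left hvz
  · rw [nn_dot]
    unfold Q at q0
    rcases hσ with rfl | rfl <;> linarith

theorem alternative (hVIR : S_VIR) (hDEC : S_DEC) (hMAX : S_MAX) (hBOC : S_BOC) (hSTR : S_STR)
    (hALT : S_ALT) (h : IsCritical c) (he : FiniteEnergy c)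
    (H : ∀ z, c.phi z = nn → c.F12 z = 0) :
    (∀ z, SDAt c 1 z) ∨ (∀ z, SDAt c (-1) z) := by
  have hF := (smF h).continuous
  have hu := (cmp h.smooth 2).continuous
  obtain ⟨hQ1, hl1, hg1⟩ := hBOC c 1 h (Or.inl rfl)
  obtain ⟨hQ2, hl2, hg2⟩ := hBOC c (-1) h (Or.inr rfl)
  set e : ℂ → ℝ := fun z => c.D1 z ⬝ᵥ c.D1 z + c.D2 z ⬝ᵥ c.D2 z +
    (1 - nn ⬝ᵥ c.phi z) ^ 2 + c.F12 z ^ 2 with hedef
  have hei : Integrable e := he.energy
  have hQsq : ∀ σ : ℝ, σ = 1 ∨ σ = -1 → ContDiff ℝ ∞ (Q c σ) →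
      Integrable (fun z => Q c σ z ^ 2) := by
    intro σ hσ hs
    refine (hei.const_mul 2).mono' (hs.continuous.pow 2).aestronglyMeasurable ?_
    refine ae_of_all _ fun z => ?_
    rw [Real.norm_eq_abs, abs_of_nonneg (sq_nonneg _)]
    have d1 := dot_self_nonneg (c.D1 z)
    have d2 := dot_self_nonneg (c.D2 z)
    simp only [hedef]
    rw [nn_dot]
    unfold Q
    rcases hσ with rfl | rfl
    · nlinarith [sq_nonneg ((1 - c.phi z 2) + c.F12 z)]
    · nlinarith [sq_nonneg ((1 - c.phi z 2) - c.F12 z)]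
  -- far away
  obtain ⟨r0, hr0⟩ : ∃ r0 : ℝ, ∀ z : ℂ, r0 ≤ ‖z‖ → 0 ≤ c.phi z 2 := by
    have h1 := he.infty.eventually (lt_mem_nhds (show (0 : ℝ) < 1 by norm_num))
    rw [← cobounded_eq_cocompact, ← comap_norm_atTop] at h1
    rw [eventually_comap] at h1
    obtain ⟨R, hR⟩ := eventually_atTop.1 h1
    refine ⟨R, fun z hz => ?_⟩
    have := hR ‖z‖ hz z rfl
    rw [nn_dot] at this
    exact this.le
  have hk : ∀ z, 0 ≤ 1 - c.phi z 2 ^ 2 ∧ 1 - c.phi z 2 ^ 2 ≤ 1 := fun z => by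
    have := u_le h z
    have := u_ge h z
    constructor <;> nlinarith
  have dec1 := hDEC (Q c 1) (fun z => 1 - c.phi z 2 ^ 2) r0 hQ1 hk (fun z hz => by
    rw [hl1 z]
    have := mul_nonneg (hr0 z hz) (R_nonneg c 1 z)
    linarith) (hQsq 1 (Or.inl rfl) hQ1)
  have dec2 := hDEC (Q c (-1)) (fun z => 1 - c.phi z 2 ^ 2) r0 hQ2 hk (fun z hz => by
    rw [hl2 z]
    have := mul_nonneg (hr0 z hz) (R_nonneg c (-1) z)
    linarith) (hQsq (-1) (Or.inr rfl) hQ2)
  have small : ∀ ε : ℝ, 0 < ε → ∃ r : ℝ, ∀ z : ℂ, r ≤ ‖z‖ →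
      |Q c 1 z| ≤ ε ∧ |Q c (-1) z| ≤ ε := by
    intro ε hε
    obtain ⟨r1, h1⟩ := dec1 (ε / 2) (by positivity)
    obtain ⟨r2, h2⟩ := dec2 (ε / 2) (by positivity)
    refine ⟨max r1 r2, fun z hz => ?_⟩
    have a1 := h1 z ((le_max_left _ _).trans hz)
    have a2 := h2 z ((le_max_right _ _).trans hz)
    have a3 := u_le h z
    unfold Q at *
    constructor <;> rw [abs_le] <;> constructor <;> linarith
  have pos1 : ∀ z, 0 ≤ Q c 1 z := hMAX (Q c 1) (fun z => c.phi z 2) (R c 1) hQ1 hu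
    (fun z => ⟨u_ge h z, u_le h z⟩) (R_nonneg c 1) hl1 hg1
    (fun ε hε => by
      obtain ⟨r, hr⟩ := small ε hε
      exact ⟨r, fun z hz => (hr z hz).1⟩)
    (fun z hz => by
      have := H z (eq_nn h hz)
      unfold Q
      rw [this]
      have := u_le h z
      linarith)
  have pos2 : ∀ z, 0 ≤ Q c (-1) z := hMAX (Q c (-1)) (fun z => c.phi z 2) (R c (-1)) hQ2 hu
    (fun z => ⟨u_ge h z, u_le h z⟩) (R_nonneg c (-1)) hl2 hg2
    (fun ε hε => by
      obtain ⟨r, hr⟩ := small ε hε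
      exact ⟨r, fun z hz => (hr z hz).2⟩)
    (fun z hz => by
      have := H z (eq_nn h hz)
      unfold Q
      rw [this]
      have := u_le h z
      linarith)
  -- the virial identity
  have prod : ∀ z, Q c 1 z * Q c (-1) z = 0 := by
    obtain ⟨T11, T12, T22, s1, s2, s3, v1, v2, tr, b1, b2, b3⟩ := hSTR c h
    have i1 : Integrable T11 := hei.mono' s1.continuous.aestronglyMeasurable (ae_of_all _ b1)
    have i2 : Integrable T12 := hei.mono' s2.continuous.aestronglyMeasurable (ae_of_all _ b2)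
    have i3 : Integrable T22 := hei.mono' s3.continuous.aestronglyMeasurable (ae_of_all _ b3)
    have v := hVIR T11 T12 T22 s1 s2 s3 i1 i2 i3 v1 v2
    set f : ℂ → ℝ := fun z => Q c 1 z * Q c (-1) z with hf
    have hfe : f = fun z => -(T11 z + T22 z) := by
      funext z
      rw [tr z]
      simp only [hf]
      unfold Q
      ring
    have hfi : Integrable f := by
      rw [hfe]
      exact (i1.add i3).neg
    have hint : ∫ z, f z = 0 := by
      rw [hfe, integral_neg, v, neg_zero]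
    have hf0 : 0 ≤ f := fun z => mul_nonneg (pos1 z) (pos2 z)
    have hae := (integral_eq_zero_iff_of_nonneg hf0 hfi).1 hint
    have hcont : Continuous f := hQ1.continuous.mul hQ2.continuous
    have := (Continuous.ae_eq_iff_eq volume hcont continuous_zero).1 hae
    intro z
    exact congrFun this z
  set O1 : Set ℂ := {z | 0 < Q c (-1) z} with hO1
  set O2 : Set ℂ := {z | 0 < Q c 1 z} with hO2
  have oO1 : IsOpen O1 := isOpen_lt continuous_const hQ2.continuous
  have oO2 : IsOpen O2 := isOpen_lt continuous_const hQ1.continuous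
  have hdis : Disjoint O1 O2 := by
    rw [Set.disjoint_left]
    intro z h1 h2
    have := prod z
    have h3 : 0 < Q c 1 z * Q c (-1) z := mul_pos h2 h1
    linarith
  have hun : ∀ z, z ∈ O1 ∪ O2 ↔ c.phi z 2 < 1 := by
    intro z
    have e1 := pos1 z
    have e2 := pos2 z
    have e3 : Q c 1 z + Q c (-1) z = 2 * (1 - c.phi z 2) := by unfold Q; ring
    constructor
    · rintro (h1 | h1)
      · have h1 : 0 < Q c (-1) z := h1
        linarith
      · have h1 : 0 < Q c 1 z := h1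
        linarith
    · intro h1
      by_contra hcon
      rw [Set.mem_union, not_or] at hcon
      have k1 : ¬ 0 < Q c (-1) z := hcon.1
      have k2 : ¬ 0 < Q c 1 z := hcon.2
      linarith
  have sd1 : ∀ z ∈ O1, SDAt c 1 z := by
    intro z hz
    refine sd_of_Q hBOC h (Or.inl rfl) ?_
    filter_upwards [oO1.mem_nhds hz] with y hy
    have hy : 0 < Q c (-1) y := hy
    rcases mul_eq_zero.1 (prod y) with h1 | h1
    · exact h1
    · linarith
  have sd2 : ∀ z ∈ O2, SDAt c (-1) z := by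
    intro z hz
    refine sd_of_Q hBOC h (Or.inr rfl) ?_
    filter_upwards [oO2.mem_nhds hz] with y hy
    have hy : 0 < Q c 1 y := hy
    rcases mul_eq_zero.1 (prod y) with h1 | h1
    · linarith
    · exact h1
  rcases hALT c O1 O2 h.smooth h.smooth1 h.smooth2 h.sphere oO1 oO2 hdis hun sd1 sd2 with h0 | h0
  · right
    intro z
    refine sd_of_Q hBOC h (Or.inr rfl) (Eventually.of_forall fun y => ?_)
    have : y ∉ O1 := by rw [h0]; exact Set.notMem_empty y
    have k : ¬ 0 < Q c (-1) y := this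
    have := pos2 y
    linarith
  · left
    intro z
    refine sd_of_Q hBOC h (Or.inl rfl) (Eventually.of_forall fun y => ?_)
    have : y ∉ O2 := by rw [h0]; exact Set.notMem_empty y
    have k : ¬ 0 < Q c 1 y := this
    have := pos1 y
    linarith

theorem vanish_of_sd {σ : ℝ} (hs : ∀ z, SDAt c σ z) (z : ℂ) (hz : c.phi z = nn) :
    c.F12 z = 0 := by
  rw [(hs z).2, hz]
  simp [nn, dotProduct, Fin.sum_univ_three]

theorem isSolution (h : IsCritical c) (he : FiniteEnergy c) (hs : ∀ z, SDAt c 1 z) :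
    c.IsSolution where
  smooth := h.smooth
  smooth1 := h.smooth1
  smooth2 := h.smooth2
  sphere := h.sphere
  sd1 := fun z => by rw [(hs z).1, one_smul]
  sd2 := fun z => by rw [(hs z).2, one_mul]
  energy := he.energy
  infty := he.infty

theorem isSolution_refl (hREF : S_REF) (h : IsCritical c) (he : FiniteEnergy c)
    (hs : ∀ z, SDAt c (-1) z) : (refl c).IsSolution := by
  obtain ⟨⟨r1, r2, r3⟩, r4, r5, r6, _⟩ := hREF c h.smooth h.smooth1 h.smooth2
  have hs' : ∀ z, SDAt (refl c) 1 z := fun z => by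
    have := r5 (-1) z (hs z)
    rwa [neg_neg] at this
  have hn : ∀ z, nn ⬝ᵥ (refl c).phi z = nn ⬝ᵥ c.phi z := fun z => by
    rw [nn_dot, nn_dot]
    simp [refl]
  refine ⟨r1, r2, r3, fun z => by rw [r4, h.sphere], fun z => by rw [(hs' z).1, one_smul],
    fun z => by rw [(hs' z).2, one_mul], ?_, ?_⟩
  · refine he.energy.congr (ae_of_all _ fun z => ?_)
    obtain ⟨q1, q2, q3⟩ := r6 z
    simp only
    rw [q1, q2, q3, hn, neg_sq]
  · exact he.infty.congr fun z => (hn z).symm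

theorem t_FIN (hVIR : S_VIR) (hDEC : S_DEC) (hMAX : S_MAX) (hBOC : S_BOC) (hSTR : S_STR)
    (hALT : S_ALT) (hREF : S_REF) (hDEG : S_DEG) (c : Config) (h : IsCritical c)
    (he : FiniteEnergy c) :
    (((∀ z, SDAt c 1 z) ∨ (∀ z, SDAt c (-1) z)) ↔ ∀ z, c.phi z = nn → c.F12 z = 0) ∧
    ((∀ z, c.phi z = nn → c.F12 z = 0) → ∃ N : ℤ, c.HasDegree N ∧ (N = 0 ∨ 2 ≤ |N|)) := by
  refine ⟨⟨?_, fun H => alternative hVIR hDEC hMAX hBOC hSTR hALT h he H⟩, fun H => ?_⟩
  · rintro (hs | hs)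
    · exact vanish_of_sd hs
    · exact vanish_of_sd hs
  · rcases alternative hVIR hDEC hMAX hBOC hSTR hALT h he H with hs | hs
    · obtain ⟨N, hN, h0⟩ := hDEG c (isSolution h he hs)
      refine ⟨N, hN, ?_⟩
      rcases h0 with h0 | h0
      · exact Or.inl h0
      · exact Or.inr (h0.trans (le_abs_self N))
    · obtain ⟨N, hN, h0⟩ := hDEG (refl c) (isSolution_refl hREF h he hs)
      obtain ⟨_, _, _, _, r7⟩ := hREF c h.smooth h.smooth1 h.smooth2
      refine ⟨-N, r7 N hN, ?_⟩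
      rcases h0 with h0 | h0
      · left; rw [h0, neg_zero]
      · right; rw [abs_neg]; exact h0.trans (le_abs_self N)

end Pool.Agent.H24.GS
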