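import Pool.Agent.H24.GS.FIN

/-! # Short definitions for the statement -/

set_option autoImplicit false

noncomputable section

namespace Pool.Agent.H24.GS

open Complex Set Filter Topology MeasureTheory Metric
open Pool.Agent.H172R3.SM Pool.Agent.H172R3.SM.Config
open scoped ContDiff Matrix

/-- the cross product -/
def cross (v w : Fin 3 → ℝ) : Fin 3 → ℝ :=
  ![v 1 * w 2 - v 2 * w 1, v 2 * w 0 - v 0 * w 2, v 0 * w 1 - v 1 * w 0]

/-- the inner product -/
def dot (v w : Fin 3 → ℝ) : ℝ := v 0 * w 0 + v 1 * w 1 + v 2 * w 2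

/-- covariant derivatives of a field `V` along the map: `D_j V = ∂_j V + A_j (n × V)` -/
def cov1 (c : Config) (V : ℂ → Fin 3 → ℝ) (z : ℂ) : Fin 3 → ℝ :=
  fderiv ℝ V z 1 + c.A1 z • cross nn (V z)

def cov2 (c : Config) (V : ℂ → Fin 3 → ℝ) (z : ℂ) : Fin 3 → ℝ :=
  fderiv ℝ V z I + c.A2 z • cross nn (V z)

/-- `F₁₂ = ∂₁ A₂ - ∂₂ A₁` -/
def curl (c : Config) (z : ℂ) : ℝ := fderiv ℝ c.A2 z 1 - fderiv ℝ c.A1 z I

/-- `D₁D₁φ + D₂D₂φ + (1 - n·φ) n` -/
def tension (c : Config) (z : ℂ) : Fin 3 → ℝ :=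
  cov1 c (cov1 c c.phi) z + cov2 c (cov2 c c.phi) z + (1 - dot nn (c.phi z)) • nn

/-- smooth solutions of the Euler-Lagrange equations of the energy, with values in the sphere:
`∂₂ F₁₂ + D₁φ · (n × φ) = 0`, `- ∂₁ F₁₂ + D₂φ · (n × φ) = 0`,
`(D₁D₁φ + D₂D₂φ + (1 - n·φ) n) × φ = 0` -/
structure Critical (c : Config) : Prop where
  smooth : ContDiff ℝ ∞ c.phi ∧ ContDiff ℝ ∞ c.A1 ∧ ContDiff ℝ ∞ c.A2
  sphere : ∀ z, dot (c.phi z) (c.phi z) = 1
  elA1 : ∀ z, fderiv ℝ (curl c) z I + dot (cov1 c c.phi z) (cross nn (c.phi z)) = 0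
  elA2 : ∀ z, - fderiv ℝ (curl c) z 1 + dot (cov2 c c.phi z) (cross nn (c.phi z)) = 0
  elphi : ∀ z, cross (tension c z) (c.phi z) = 0

/-- twice the energy density -/
def density (c : Config) (z : ℂ) : ℝ :=
  dot (cov1 c c.phi z) (cov1 c c.phi z) + dot (cov2 c c.phi z) (cov2 c c.phi z) +
    (1 - dot nn (c.phi z)) ^ 2 + curl c z ^ 2

/-- finite energy and the boundary condition `n · φ → 1` -/
structure Finite (c : Config) : Prop where
  energy : Integrable (density c)
  infty : Tendsto (fun z => dot nn (c.phi z)) (cocompact ℂ) (𝓝 1)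

/-- the self-dual (`σ = 1`) or anti-self-dual (`σ = -1`) equations:
`D₁φ = -σ φ × D₂φ`, `F₁₂ = σ (1 - n·φ)` -/
def Dual (c : Config) (σ : ℝ) : Prop :=
  ∀ z, cov1 c c.phi z = -(σ • cross (c.phi z) (cov2 c c.phi z)) ∧
    curl c z = σ * (1 - dot nn (c.phi z))

/-- `φ` has the degree `N`: it takes the value `-n` at finitely many points only and the sum of
the local degrees (winding numbers of `φ₁ - i φ₂` on small circles) at these points is `N` -/
def Degree (c : Config) (N : ℤ) : Prop := c.HasDegree N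

theorem cross_eq (v w : Fin 3 → ℝ) : cross v w = v ⨯₃ w := by
  unfold cross
  rw [cross_apply]

theorem dot_eq (v w : Fin 3 → ℝ) : dot v w = v ⬝ᵥ w := by
  unfold dot
  simp [dotProduct, Fin.sum_univ_three]

theorem cov1_eq (c : Config) : cov1 c c.phi = c.D1 := by
  funext z
  unfold cov1 D1
  rw [cross_eq]

theorem cov2_eq (c : Config) : cov2 c c.phi = c.D2 := by
  funext z
  unfold cov2 D2
  rw [cross_eq]

theorem curl_eq (c : Config) : curl c = c.F12 := rfl

theorem Critical.isCritical {c : Config} (h : Critical c) : IsCritical c where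
  smooth := h.smooth.1
  smooth1 := h.smooth.2.1
  smooth2 := h.smooth.2.2
  sphere := fun z => by rw [← dot_eq]; exact h.sphere z
  elA1 := fun z => by
    have := h.elA1 z
    rw [dot_eq, cross_eq, cov1_eq, curl_eq] at this
    exact this
  elA2 := fun z => by
    have := h.elA2 z
    rw [dot_eq, cross_eq, cov2_eq, curl_eq] at this
    exact this
  elphi := fun z => by
    have := h.elphi z
    unfold tension at this
    rw [cross_eq, cov1_eq, cov2_eq, dot_eq] at this
    unfold cov1 cov2 at this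
    rw [cross_eq, cross_eq] at this
    exact this

theorem Finite.finiteEnergy {c : Config} (h : Finite c) : FiniteEnergy c where
  energy := by
    have := h.energy
    refine this.congr (ae_of_all _ fun z => ?_)
    unfold density
    rw [cov1_eq, cov2_eq, curl_eq, dot_eq, dot_eq, dot_eq]
  infty := h.infty.congr fun z => dot_eq _ _

theorem dual_iff (c : Config) (σ : ℝ) : Dual c σ ↔ ∀ z, SDAt c σ z := by
  unfold Dual SDAt
  refine forall_congr' fun z => ?_
  rw [cov1_eq, cov2_eq, curl_eq, dot_eq, cross_eq]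

/-- the degree is unique -/
theorem hasDegree_unique {c : Config} {M N : ℤ} (hM : c.HasDegree M) (hN : c.HasDegree N) :
    M = N := by
  obtain ⟨_, m, hm, hm'⟩ := hM
  obtain ⟨_, k, hk, hk'⟩ := hN
  rw [← hm', ← hk']
  refine finsum_mem_congr rfl fun p hp => ?_
  obtain ⟨r, h1, h2⟩ := ((hm p hp).and (hk p hp)).exists
  exact Wind.unique h1 h2

end Pool.Agent.H24.GS
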