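import Pool.Graph.R_seed8.H172R3.SM.G

/-!
# Project GS: critical points of the gauged O(3) sigma model (MP_5f0afd_mp)

Uses the library development `Pool.Agent.H172R3.SM` (modules
`Pool.Graph.R_seed8.H172R3.SM.{Defs,S1,...,S5,C,U,M,F,G}`): `Config`, `D1`, `D2`, `F12`, `dx`, `dy`,
`lap`, `dbar`, circle means `CM`, `lap_nonpos_of_max`, `exists_pot`, `exists_str`, `Str.card_lt`, ...

Prove `S_XXX` as `theorem t_XXX (h : S_YYY) ... : S_XXX`.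
-/

set_option autoImplicit false

noncomputable section

namespace Pool.Agent.H24.GS

open Complex Set Filter Topology MeasureTheory Metric
open Pool.Agent.H172R3.SM Pool.Agent.H172R3.SM.Config
open scoped ContDiff Matrix

/-- smooth configurations with values in the sphere which solve the Euler-Lagrange equations of
the energy -/
structure IsCritical (c : Config) : Prop where
  smooth : ContDiff ℝ ∞ c.phi
  smooth1 : ContDiff ℝ ∞ c.A1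
  smooth2 : ContDiff ℝ ∞ c.A2
  sphere : ∀ z, c.phi z ⬝ᵥ c.phi z = 1
  /-- variation of `A₁`: `∂₂ F₁₂ + D₁φ · (n × φ) = 0` -/
  elA1 : ∀ z, dy c.F12 z + c.D1 z ⬝ᵥ (nn ⨯₃ c.phi z) = 0
  /-- variation of `A₂`: `- ∂₁ F₁₂ + D₂φ · (n × φ) = 0` -/
  elA2 : ∀ z, - dx c.F12 z + c.D2 z ⬝ᵥ (nn ⨯₃ c.phi z) = 0
  /-- variation of `φ`: `D₁D₁φ + D₂D₂φ + (1 - n·φ) n` is parallel to `φ` -/
  elphi : ∀ z, ((fderiv ℝ c.D1 z 1 + c.A1 z • (nn ⨯₃ c.D1 z)) +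
    (fderiv ℝ c.D2 z I + c.A2 z • (nn ⨯₃ c.D2 z)) + (1 - nn ⬝ᵥ c.phi z) • nn) ⨯₃ c.phi z = 0

/-- finite energy and the boundary condition `n · φ → 1` -/
structure FiniteEnergy (c : Config) : Prop where
  energy : Integrable fun z => c.D1 z ⬝ᵥ c.D1 z + c.D2 z ⬝ᵥ c.D2 z +
    (1 - nn ⬝ᵥ c.phi z) ^ 2 + c.F12 z ^ 2
  infty : Tendsto (fun z => nn ⬝ᵥ c.phi z) (cocompact ℂ) (𝓝 1)

/-- the first order equations at the point `z`: `D₁φ = -σ φ × D₂φ`, `F₁₂ = σ (1 - n·φ)`;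
`σ = 1`: self-dual, `σ = -1`: anti-self-dual -/
def SDAt (c : Config) (σ : ℝ) (z : ℂ) : Prop :=
  c.D1 z = -(σ • (c.phi z ⨯₃ c.D2 z)) ∧ c.F12 z = σ * (1 - nn ⬝ᵥ c.phi z)

/-- `Q_σ = (1 - n·φ) - σ F₁₂` -/
def Q (c : Config) (σ : ℝ) (z : ℂ) : ℝ := (1 - c.phi z 2) - σ * c.F12 z

/-- `R_σ = |D₁φ + σ φ × D₂φ|²` -/
def R (c : Config) (σ : ℝ) (z : ℂ) : ℝ :=
  (c.D1 z + σ • (c.phi z ⨯₃ c.D2 z)) ⬝ᵥ (c.D1 z + σ • (c.phi z ⨯₃ c.D2 z))

/-- VIR: a divergence free, integrable, smooth symmetric tensor has trace of integral `0`.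
Let `χ` be a `ContDiffBump 0` with radii `1, 2`, `χ_r z = χ (z / r)`.  The smooth compactly supported
`W1 = χ_r (T11 x + T12 y)`, `W2 = χ_r (T12 x + T22 y)` have `∫ dx W1 = ∫ dy W2 = 0`
(`integral_mul_fderiv_eq_neg_fderiv_mul_of_integrable` with `f = 1`), and
`dx W1 + dy W2 = χ_r (T11 + T22) + (x/r ∂₁χ(z/r)) T11 + ...` is dominated by
`C (|T11| + |T12| + |T22|)` and tends to `T11 + T22` pointwise as `r → ∞`. -/
def S_VIR : Prop := ∀ T11 T12 T22 : ℂ → ℝ, ContDiff ℝ ∞ T11 → ContDiff ℝ ∞ T12 →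
  ContDiff ℝ ∞ T22 → Integrable T11 → Integrable T12 → Integrable T22 →
  (∀ z, dx T11 z + dy T12 z = 0) → (∀ z, dx T12 z + dy T22 z = 0) →
  ∫ z, (T11 z + T22 z) = 0

/-- DEC: one-sided decay.  For `ε > 0` let `G = √(q² + ε²) + q > 0`, smooth; for `‖z‖ ≥ r0`:
`lap G ≥ (1 + q/√(q²+ε²)) lap q ≥ - ε` (library `lap_comp`; if `q < 0` then
`(1 + q/√(q²+ε²)) |q| ≤ ε`).  For `‖x‖ ≥ r0 + 1` the function `G + (ε/4) |z - x|²` is subharmonic in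
`ball x 1`, so (`CM_mono_local`, `tendsto_CM`) `2π G x ≤ ∫_θ G (x + s e^{iθ}) + 2π ε/4` for
`0 < s ≤ 1`; multiply by `s` and integrate (`Complex.integral_comp_polarCoord_symm`):
`π G x ≤ ∫_{ball x 1} G + π ε/4`, and `G ≤ 2 |q| + ε ≤ 2 ε + q²/ε`, with
`∫_{ball x 1} q² → 0` as `x → ∞` (tail of an integrable function).  As `2 q ≤ G`, done. -/
def S_DEC : Prop := ∀ (q k : ℂ → ℝ) (r0 : ℝ), ContDiff ℝ ∞ q → (∀ z, 0 ≤ k z ∧ k z ≤ 1) →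
  (∀ z, r0 ≤ ‖z‖ → k z * q z ≤ lap q z) → Integrable (fun z => q z ^ 2) →
  ∀ ε : ℝ, 0 < ε → ∃ r : ℝ, ∀ z : ℂ, r ≤ ‖z‖ → q z ≤ ε

/-- MAX: `lap q = (1 - u²) q + u ρ`, `ρ ≥ 0`, `(1 - u²) ρ = |∇q|²`, `-1 ≤ u ≤ 1`, `q → 0` at
infinity, `q ≥ 0` where `u = 1`.  Then `q ≥ 0`.  Otherwise `q` has a minimum `m < 0`; the set
`K = {q = m}` is compact; at its points `∇q = 0`, so if `u² < 1` then `ρ = 0` and `lap q = (1-u²) m < 0`,
contradiction (`lap_nonpos_of_max` for `-q`); `u = 1` is excluded, so `u = -1` on `K`.  In a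
bounded neighbourhood `V` of `K` with `q < 0` and `u < 0` on the closure: `lap q ≤ 0` there,
`q ≥ m + δ` on the boundary of `V`; `q - η |z|²` (`η > 0` small) has a minimum over the closure at
an interior point, where `lap (q - η |z|²) ≤ -4 η < 0`: contradiction. -/
def S_MAX : Prop := ∀ q u ρ : ℂ → ℝ, ContDiff ℝ ∞ q → Continuous u → (∀ z, -1 ≤ u z ∧ u z ≤ 1) →
  (∀ z, 0 ≤ ρ z) → (∀ z, lap q z = (1 - u z ^ 2) * q z + u z * ρ z) →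
  (∀ z, (1 - u z ^ 2) * ρ z = dx q z ^ 2 + dy q z ^ 2) →
  (∀ ε : ℝ, 0 < ε → ∃ r : ℝ, ∀ z : ℂ, r ≤ ‖z‖ → |q z| ≤ ε) → (∀ z, u z = 1 → 0 ≤ q z) →
  ∀ z, 0 ≤ q z

/-- BOC: the equations for `Q_σ` (`σ = ±1`).  Components: `a, b, c = φ₀, φ₁, φ₂`,
`Dk = (∂_k a - A_k b, ∂_k b + A_k a, ∂_k c)`, `j_k = -b Dk0 + a Dk1`, `φ · Dk = 0`.
`lap c = -(1-c)(1-c²) - c |D|²` (third component of `elphi`, `X2 = (X·φ) c`, where
`X·φ = -|D1|² - |D2|² + (1-c) c`), `lap F = dx j2 - dy j1 = (1-c²) F + 2 (D10 D21 - D11 D20)`,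
`R_σ = |D1|² + |D2|² - 2 σ φ·(D1×D2)`, `c φ·(D1×D2) = D10 D21 - D11 D20`;
`dx Q = -D12 - σ j2`, `dy Q = -D22 + σ j1`, and for `V·φ = 0`: `(1-c²)|V|² = V2² + (-b V0 + a V1)²`,
used for `V = D1 + σ φ×D2`. -/
def S_BOC : Prop := ∀ (c : Config) (σ : ℝ), IsCritical c → (σ = 1 ∨ σ = -1) →
  ContDiff ℝ ∞ (Q c σ) ∧
  (∀ z, lap (Q c σ) z = (1 - c.phi z 2 ^ 2) * Q c σ z + c.phi z 2 * R c σ z) ∧
  (∀ z, (1 - c.phi z 2 ^ 2) * R c σ z = dx (Q c σ) z ^ 2 + dy (Q c σ) z ^ 2)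

/-- STR: the stress tensor `T11 = (|D1|² - |D2|²)/2 + (F² - (1-c)²)/2`, `T12 = D1·D2`,
`T22 = (|D2|² - |D1|²)/2 + (F² - (1-c)²)/2` is smooth and divergence free
(`dx T11 + dy T12 = X·D1 - ...`: `X ∥ φ` gives `X·D1 = 0`, `D1 D2 φ - D2 D1 φ = F n×φ`). -/
def S_STR : Prop := ∀ c : Config, IsCritical c →
  ∃ T11 T12 T22 : ℂ → ℝ, ContDiff ℝ ∞ T11 ∧ ContDiff ℝ ∞ T12 ∧ ContDiff ℝ ∞ T22 ∧
  (∀ z, dx T11 z + dy T12 z = 0) ∧ (∀ z, dx T12 z + dy T22 z = 0) ∧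
  (∀ z, T11 z + T22 z = c.F12 z ^ 2 - (1 - c.phi z 2) ^ 2) ∧
  (∀ z, |T11 z| ≤ c.D1 z ⬝ᵥ c.D1 z + c.D2 z ⬝ᵥ c.D2 z + (1 - nn ⬝ᵥ c.phi z) ^ 2 + c.F12 z ^ 2) ∧
  (∀ z, |T12 z| ≤ c.D1 z ⬝ᵥ c.D1 z + c.D2 z ⬝ᵥ c.D2 z + (1 - nn ⬝ᵥ c.phi z) ^ 2 + c.F12 z ^ 2) ∧
  (∀ z, |T22 z| ≤ c.D1 z ⬝ᵥ c.D1 z + c.D2 z ⬝ᵥ c.D2 z + (1 - nn ⬝ᵥ c.phi z) ^ 2 + c.F12 z ^ 2)

/-- reflection of the target and of the gauge field: exchanges the self-dual and the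
anti-self-dual equations -/
def refl (c : Config) : Config where
  phi := fun z => ![c.phi z 0, - c.phi z 1, c.phi z 2]
  A1 := fun z => - c.A1 z
  A2 := fun z => - c.A2 z

/-- REF: `D_k (refl φ) = refl (D_k φ)`, `refl φ × refl ψ = - refl (φ × ψ)`, `F₁₂` changes sign;
`(refl c).south` is the complex conjugate of `c.south`, so winding numbers change sign. -/
def S_REF : Prop := ∀ c : Config, ContDiff ℝ ∞ c.phi → ContDiff ℝ ∞ c.A1 → ContDiff ℝ ∞ c.A2 →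
  (ContDiff ℝ ∞ (refl c).phi ∧ ContDiff ℝ ∞ (refl c).A1 ∧ ContDiff ℝ ∞ (refl c).A2) ∧
  (∀ z, (refl c).phi z ⬝ᵥ (refl c).phi z = c.phi z ⬝ᵥ c.phi z) ∧
  (∀ (σ : ℝ) (z : ℂ), SDAt c σ z → SDAt (refl c) (-σ) z) ∧
  (∀ z, (refl c).D1 z ⬝ᵥ (refl c).D1 z = c.D1 z ⬝ᵥ c.D1 z ∧
    (refl c).D2 z ⬝ᵥ (refl c).D2 z = c.D2 z ⬝ᵥ c.D2 z ∧ (refl c).F12 z = - c.F12 z) ∧
  (∀ N : ℤ, (refl c).HasDegree N → c.HasDegree (-N))

/-- DBA: the stereographic coordinate `psi = (φ₀ + i φ₁)/(1 + φ₂)` satisfies `∂̄ psi = al psi` at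
every point where the first order equation holds (the proof of the library lemma `dbar_psi`, S1,
with `SDAt c 1 z` at the single point `z` only). -/
def S_DBA : Prop := ∀ (c : Config) (z : ℂ), ContDiff ℝ ∞ c.phi → (∀ z, c.phi z ⬝ᵥ c.phi z = 1) →
  SDAt c 1 z → 1 + c.phi z 2 ≠ 0 → dbar c.psi z = c.al z * c.psi z

/-- ALT: let `O1`, `O2` be disjoint open sets with union `{φ₂ < 1}`, the self-dual equations hold on
`O1`, the anti-self-dual equations on `O2`.  Then one of them is empty.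
Let `p1 = psi` on `O1`, `0` elsewhere, `p2 = conj psi = psi (refl c)` on `O2`, `0` elsewhere.  Both are
real differentiable on `{φ₂ > -1}` with `∂̄ p1 = al p1`, `∂̄ p2 = al (refl c) p2`: the only
critical points `z` have `φ₂ z = 1`, `psi z = 0`; if `z` is in the closure of `O1` and of `O2` then by
continuity `∂̄ psi z = 0` and `∂̄ (conj psi) z = 0`, so `fderiv psi z = 0` and `p1`, `p2` have
derivative `0`; if `z` is not in the closure of `O2`, then `p1 = psi` near `z`.  So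
`exp (-g) p1` (`exists_pot`) is holomorphic near each point of `{φ₂ > -1}` (`holo_of_dbar`), similarly
`p2`.  `N1 = {z : O1 is absent near z}`, `N2` are open; `N1 ∪ N2 = univ` (`O1 ⊆ N2`, `O2 ⊆ N1`, and at a
point with `φ₂ = 1` one of the two holomorphic functions vanishes near it, their product being
`0`); `N1 ∩ N2` is open and closed (identity theorem).  Connectedness of the plane. -/
def S_ALT : Prop := ∀ (c : Config) (O1 O2 : Set ℂ), ContDiff ℝ ∞ c.phi → ContDiff ℝ ∞ c.A1 →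
  ContDiff ℝ ∞ c.A2 → (∀ z, c.phi z ⬝ᵥ c.phi z = 1) → IsOpen O1 → IsOpen O2 → Disjoint O1 O2 →
  (∀ z, z ∈ O1 ∪ O2 ↔ c.phi z 2 < 1) → (∀ z ∈ O1, SDAt c 1 z) → (∀ z ∈ O2, SDAt c (-1) z) →
  O1 = ∅ ∨ O2 = ∅

/-- DEG: solutions of the self-dual equations have degree `0` or at least `2`.  If the south pole
is not attained then the degree is `0`.  Otherwise `exists_str`, `Str.wind_south`, `Str.card_lt`:
the degree is `card P ≥ 2` (small circles around `p ∈ P` contain `count p P` points of `P` and no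
point of `Q`). -/
def S_DEG : Prop := ∀ c : Config, c.IsSolution → ∃ N : ℤ, c.HasDegree N ∧ (N = 0 ∨ 2 ≤ N)

end Pool.Agent.H24.GS
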